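import Mathlib

/-!
# Tree automata whose distributional map has infinitely many fixed points

For every finite state set `S` with at least three elements there are a tree automaton on `S` and a
child distribution such that the automaton distributional map has infinitely many fixed points in
the simplex of probability vectors on `S`.

The automaton: fix a state `s₀`. A vertex with exactly two children, one in state `s₀` and the other
in a state `s ≠ s₀`, gets state `s`; in all other cases it gets state `s₀`. With exactly two children
almost surely, every probability vector `x` with `x s₀ = 1/2` is a fixed point.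
-/

open Finset

namespace Pool.Agent.Results.MP_09543b_pr.InfinitelyManyFixedPoints

/-- A tree automaton on the state set `S`: to every vector `n` of counts (`n s` is the number of
children in state `s`) it assigns the state of the parent. -/
abbrev TreeAutomaton (S : Type*) := (S → ℕ) → S

/-- A child distribution: a probability measure `χ` on `ℕ = {0, 1, 2, …}` (given by its point
masses) which gives positive mass to `{2, 3, …}`. -/
def IsChildDistribution (χ : ℕ → ℝ) : Prop :=
  (∀ m, 0 ≤ χ m) ∧ HasSum χ 1 ∧ ∃ m, 2 ≤ m ∧ 0 < χ m

/-- The automaton distributional map `Ψ = Ψ_{A,χ}`, by its explicit formula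
`Ψ(x)_s = ∑_m χ(m) ∑_n (m! / ∏_t (n_t)!) ∏_t x_t ^ (n_t)`,
where the inner sum is over all count vectors `n : S → ℕ` with `∑_t n_t = m` and `A(n) = s`. -/
noncomputable def distributionalMap {S : Type*} [Fintype S] [DecidableEq S]
    (A : TreeAutomaton S) (χ : ℕ → ℝ) (x : S → ℝ) : S → ℝ := fun s =>
  ∑' m : ℕ, χ m * ∑ n ∈ (Finset.univ : Finset S).piAntidiag m with A n = s,
    (Nat.multinomial Finset.univ n : ℝ) * ∏ t, x t ^ n t

variable {S : Type*} [Fintype S] [DecidableEq S]

open Classical in
/-- The automaton used in the proof: a vertex with exactly two children, one in state `s₀` and the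
other in a state `s ≠ s₀`, gets state `s`; in all other cases it gets state `s₀`. -/
noncomputable def xorAutomaton (s₀ : S) : TreeAutomaton S := fun n =>
  if h : ∃ s, s ≠ s₀ ∧ n = Pi.single s₀ 1 + Pi.single s 1 then h.choose else s₀

/-- The child distribution: every vertex has exactly two children. -/
def binary : ℕ → ℝ := fun m => if m = 2 then 1 else 0

lemma xorAutomaton_eq_iff (s₀ : S) {s : S} (hs : s ≠ s₀) (n : S → ℕ) :
    xorAutomaton s₀ n = s ↔ n = Pi.single s₀ 1 + Pi.single s 1 := by
  unfold xorAutomaton
  split_ifs with h
  · constructor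
    · intro h'
      have := h.choose_spec.2
      rw [h'] at this
      exact this
    · intro h'
      have h1 := h.choose_spec.1
      have h2 := h.choose_spec.2
      have h3 : (Pi.single s 1 : S → ℕ) = Pi.single h.choose 1 :=
        add_left_cancel (h'.symm.trans h2)
      have h4 := congrFun h3 s
      by_contra hne
      simp [Pi.single_apply] at h4
      exact hne h4.symm
  · constructor
    · intro h'
      exact absurd h'.symm hs
    · intro h'
      exact absurd ⟨s, hs, h'⟩ h

lemma binary_isChildDistribution : IsChildDistribution binary := by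
  refine ⟨fun m => ?_, ?_, 2, le_rfl, ?_⟩
  · unfold binary; split_ifs <;> norm_num
  · unfold binary; exact hasSum_ite_eq 2 1
  · simp [binary]

lemma distributionalMap_binary (A : TreeAutomaton S) (x : S → ℝ) (s : S) :
    distributionalMap A binary x s =
      ∑ n ∈ (Finset.univ : Finset S).piAntidiag 2 with A n = s,
        (Nat.multinomial Finset.univ n : ℝ) * ∏ t, x t ^ n t := by
  unfold distributionalMap
  rw [tsum_eq_single 2]
  · simp [binary]
  · intro m hm
    simp [binary, hm]

lemma sum_distributionalMap_binary (A : TreeAutomaton S) (x : S → ℝ) :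
    ∑ s, distributionalMap A binary x s = (∑ s, x s) ^ 2 := by
  simp only [distributionalMap_binary]
  rw [Finset.sum_pow_eq_sum_piAntidiag]
  rw [Finset.sum_fiberwise]

lemma multinomial_two (s₀ s : S) (hs : s ≠ s₀) :
    Nat.multinomial Finset.univ (Pi.single s₀ 1 + Pi.single s 1 : S → ℕ) = 2 := by
  have h := Nat.multinomial_spec Finset.univ (Pi.single s₀ 1 + Pi.single s 1 : S → ℕ)
  have h1 : (∏ i, (Nat.factorial ((Pi.single s₀ 1 + Pi.single s 1 : S → ℕ) i))) = 1 := by
    apply Finset.prod_eq_one
    intro i _
    by_cases h1 : i = s₀
    · subst h1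
      simp [hs.symm]
    · by_cases h2 : i = s
      · subst h2
        simp [h1]
      · simp [h1, h2]
  have h2 : ∑ i, (Pi.single s₀ 1 + Pi.single s 1 : S → ℕ) i = 2 := by
    simp [Finset.sum_add_distrib]
  rw [h1, h2] at h
  simpa using h

lemma prod_two (s₀ s : S) (x : S → ℝ) :
    ∏ t, x t ^ ((Pi.single s₀ 1 + Pi.single s 1 : S → ℕ) t) = x s₀ * x s := by
  have : ∀ t, x t ^ ((Pi.single s₀ 1 + Pi.single s 1 : S → ℕ) t)
      = (if t = s₀ then x t else 1) * (if t = s then x t else 1) := by
    intro t
    rw [Pi.add_apply, pow_add]
    congr 1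
    · by_cases h : t = s₀ <;> simp [h]
    · by_cases h : t = s <;> simp [h]
  simp_rw [this]
  rw [Finset.prod_mul_distrib]
  simp

lemma distributionalMap_of_ne (s₀ : S) {s : S} (hs : s ≠ s₀) (x : S → ℝ) :
    distributionalMap (xorAutomaton s₀) binary x s = 2 * (x s₀ * x s) := by
  rw [distributionalMap_binary]
  have : ((Finset.univ : Finset S).piAntidiag 2).filter (fun n => xorAutomaton s₀ n = s)
      = {Pi.single s₀ 1 + Pi.single s 1} := by
    ext n
    simp only [Finset.mem_filter, Finset.mem_singleton, xorAutomaton_eq_iff s₀ hs]
    constructor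
    · exact fun h => h.2
    · intro h
      refine ⟨?_, h⟩
      rw [Finset.mem_piAntidiag]
      subst h
      refine ⟨?_, fun _ _ => Finset.mem_univ _⟩
      simp [Finset.sum_add_distrib]
  rw [this, Finset.sum_singleton, multinomial_two s₀ s hs, prod_two]
  norm_num

lemma isFixed (s₀ : S) (x : S → ℝ) (hx : ∑ s, x s = 1) (h0 : x s₀ = 1 / 2) :
    distributionalMap (xorAutomaton s₀) binary x = x := by
  have hne : ∀ s, s ≠ s₀ → distributionalMap (xorAutomaton s₀) binary x s = x s := by
    intro s hs
    rw [distributionalMap_of_ne s₀ hs, h0]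
    ring
  funext s
  by_cases hs : s = s₀
  · subst hs
    have h1 := sum_distributionalMap_binary (xorAutomaton s) x
    rw [hx, one_pow] at h1
    rw [← Finset.add_sum_erase _ _ (Finset.mem_univ s)] at h1 hx
    have h2 : ∑ t ∈ Finset.univ.erase s, distributionalMap (xorAutomaton s) binary x t
        = ∑ t ∈ Finset.univ.erase s, x t :=
      Finset.sum_congr rfl fun t ht => hne t (Finset.ne_of_mem_erase ht)
    rw [h2] at h1
    linarith
  · exact hne s hs

/-- **Tree automata with infinitely many fixed points.** For every finite state set `S` with at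
least three elements there are a tree automaton `A` on `S` and a child distribution `χ` (with
`χ(2) = 1`, that is, every vertex has exactly two children) such that the automaton distributional
map `Ψ_{A,χ}` has infinitely many fixed points in the simplex of probability vectors on `S`. -/
theorem result (S : Type*) [Fintype S] [DecidableEq S] (hS : 3 ≤ Fintype.card S) :
    ∃ (A : TreeAutomaton S) (χ : ℕ → ℝ), IsChildDistribution χ ∧ χ 2 = 1 ∧
      {x : S → ℝ | x ∈ stdSimplex ℝ S ∧ distributionalMap A χ x = x}.Infinite := by
  classical
  obtain ⟨a, b, c, hab, hac, hbc⟩ := (Fintype.two_lt_card_iff (α := S)).mp (by omega)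
  refine ⟨xorAutomaton a, binary, binary_isChildDistribution, by simp [binary], ?_⟩
  -- the segment of fixed points
  let f : ℝ → (S → ℝ) := fun t =>
    Pi.single a (1 / 2) + Pi.single b t + Pi.single c (1 / 2 - t)
  have hinj : Function.Injective f := by
    intro t u h
    have := congrFun h b
    simpa [f, Pi.single_apply, hab.symm, hbc] using this
  have hsub : f '' Set.Icc 0 (1 / 2) ⊆
      {x : S → ℝ | x ∈ stdSimplex ℝ S ∧ distributionalMap (xorAutomaton a) binary x = x} := by
    rintro _ ⟨t, ⟨ht0, ht1⟩, rfl⟩
    have hsum : ∑ s, f t s = 1 := by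
      simp [f, Finset.sum_add_distrib]
      norm_num
    refine ⟨⟨?_, hsum⟩, isFixed a _ hsum ?_⟩
    · intro s
      simp only [f, Pi.add_apply, Pi.single_apply]
      have h1 : (0 : ℝ) ≤ if s = a then 1 / 2 else 0 := by split_ifs <;> norm_num
      have h2 : (0 : ℝ) ≤ if s = b then t else 0 := by split_ifs <;> linarith
      have h3 : (0 : ℝ) ≤ if s = c then 1 / 2 - t else 0 := by split_ifs <;> linarith
      linarith
    · simp [f, hab, hac]
  refine Set.Infinite.mono hsub ?_
  exact (Set.Icc_infinite (by norm_num)).image hinj.injOn

end Pool.Agent.Results.MP_09543b_pr.InfinitelyManyFixedPoints
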